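import Mathlib
import Pool.Agent.BLF.Fin
import Pool.Agent.BLF.Main

/-!
For every large odd `n` the reduced Bernoulli polynomial `B_n / (x (x - 1/2) (x - 1))` is the product of an
irreducible polynomial and a polynomial of degree at most `n ^ (2/5)`.
-/

namespace Pool.Agent.Results.MP_f85b9b_nt.LargeFactor

open Polynomial

theorem result : ∃ n₀ : ℕ, ∀ n : ℕ, n₀ ≤ n → Odd n → ∃ P Q : ℚ[X],
    Polynomial.bernoulli n = X * (X - C (1 / 2)) * (X - 1) * (P * Q) ∧ Irreducible P ∧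
      (Q.natDegree : ℝ) ≤ (n : ℝ) ^ (2 / 5 : ℝ) :=
  Pool.Agent.BLF.large_factor Pool.Agent.BLF.all

end Pool.Agent.Results.MP_f85b9b_nt.LargeFactor
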