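import Mathlib
import Pool.Agent.BLF.Fin
import Pool.Agent.BLF.Main

/-!
For all but `O(N ^ (4/5))` of the primes `l ≤ N` the reduced Bernoulli polynomial of index `l + 2` is
irreducible.
-/

namespace Pool.Agent.Results.MP_f85b9b_nt.PrimePlusTwo

open Polynomial Finset

open scoped Classical in
theorem result : ∃ K : ℝ, 0 < K ∧ ∀ N : ℕ, 1 ≤ N →
    (((Icc 1 N).filter (fun l : ℕ => l.Prime ∧ ¬ ∃ R : ℚ[X],
      Polynomial.bernoulli (l + 2) = X * (X - C (1 / 2)) * (X - 1) * R ∧ Irreducible R)).card : ℝ) ≤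
        K * (N : ℝ) ^ (4 / 5 : ℝ) :=
  Pool.Agent.BLF.prime_count Pool.Agent.BLF.all
    (Pool.Agent.BLF.ord_holds Pool.Agent.BLF.two_holds) Pool.Agent.BLF.cnt_holds

end Pool.Agent.Results.MP_f85b9b_nt.PrimePlusTwo
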